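import Mathlib

/-!
# Monotone `G_δ` representatives for arbitrary s-finite measures (MP_2abcfb_lc, Q1 and Q2)

For an s-finite (e.g. σ-finite) measure `μ` on a countably generated σ-algebra which contains the
open sets, a monotone map to the `G_δ` sets which selects one representative from every class
modulo null sets exists if and only if every measurable set has some `G_δ` representative.
In particular such a map exists for every s-finite Borel measure on every second countable
(pseudo)metrizable space.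
-/

set_option autoImplicit false

namespace Pool.Agent.Results.MP_2abcfb_lc.AllMeasures

open MeasureTheory Set Filter Topology ProbabilityTheory MeasurableSpace

open scoped ENNReal

universe u

/-- There is a map `ψ` from the `μ`-measurable sets to the `G_δ` sets such that `ψ M` differs from
`M` by a null set, `ψ M ⊆ ψ M'` whenever `M ⊆ M'` up to a null set (in particular whenever
`M ⊆ M'`), and `ψ M = ψ M'` whenever `M` and `M'` differ by a null set. -/
def HasMonotoneGdelta {X : Type u} [TopologicalSpace X] [MeasurableSpace X]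
    (μ : Measure X) : Prop :=
  ∃ ψ : {M : Set X // NullMeasurableSet M μ} → Set X,
    (∀ M, IsGδ (ψ M)) ∧
    (∀ M M' : {M : Set X // NullMeasurableSet M μ}, M.1 ⊆ M'.1 → ψ M ⊆ ψ M') ∧
    (∀ M M' : {M : Set X // NullMeasurableSet M μ}, μ (M.1 \ M'.1) = 0 → ψ M ⊆ ψ M') ∧
    (∀ M : {M : Set X // NullMeasurableSet M μ}, μ (symmDiff M.1 (ψ M)) = 0) ∧
    (∀ M M' : {M : Set X // NullMeasurableSet M μ}, μ (symmDiff M.1 M'.1) = 0 → ψ M = ψ M')

section Density

variable {X : Type u} [MeasurableSpace X] [CountablyGenerated X]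

/-- The martingale convergence theorem for the relative measure of `M` in the cells of the
partitions generated by a countable generating family. -/
lemma dens_tendsto (ν : Measure X) [IsFiniteMeasure ν] {M : Set X} (hM : MeasurableSet M) :
    ∀ᵐ x ∂ν, Tendsto (fun n => (ν (countablePartitionSet n x ∩ M) /
      ν (countablePartitionSet n x)).toReal) atTop (𝓝 (M.indicator (fun _ => (1 : ℝ)) x)) := by
  let κ : Kernel Unit (X × X) := Kernel.const Unit (ν.map (fun x => (x, x)))
  let νk : Kernel Unit X := Kernel.const Unit ν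
  have hdiag : Measurable (fun x : X => (x, x)) := measurable_id.prodMk measurable_id
  have hκ : ∀ A B : Set X, MeasurableSet A → MeasurableSet B → κ () (A ×ˢ B) = ν (A ∩ B) := by
    intro A B hA hB
    show (ν.map (fun x => (x, x))) (A ×ˢ B) = ν (A ∩ B)
    rw [Measure.map_apply hdiag (hA.prod hB)]
    congr 1
  have hfst : Kernel.fst κ ≤ νk := by
    intro a
    rw [Measure.le_iff]
    intro s hs
    rw [Kernel.fst_apply' _ _ hs]
    show (ν.map (fun x => (x, x))) (Prod.fst ⁻¹' s) ≤ ν s
    rw [Measure.map_apply hdiag (measurable_fst hs)]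
    rfl
  have h1 := Kernel.tendsto_m_density hfst () hM
  have h2 : (fun x => Kernel.density κ νk () x M) =ᵐ[ν] M.indicator (fun _ => (1 : ℝ)) := by
    have hi1 : Integrable (fun x => Kernel.density κ νk () x M) ν :=
      Kernel.integrable_density hfst () hM
    have hi2 : Integrable (M.indicator (fun _ => (1 : ℝ))) ν :=
      (integrable_const (1 : ℝ)).indicator hM
    refine Integrable.ae_eq_of_forall_setIntegral_eq _ _ hi1 hi2 ?_
    intro s hs _
    have := Kernel.setIntegral_density hfst () hM hs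
    change ∫ x in s, Kernel.density κ νk () x M ∂ν = (κ ()).real (s ×ˢ M) at this
    rw [this, Measure.real, hκ s M hs hM, setIntegral_indicator hM]
    simp [Measure.real]
  filter_upwards [h1, h2] with x hx hx2
  rw [hx2] at hx
  refine hx.congr fun n => ?_
  show (κ () (countablePartitionSet n x ×ˢ M) / ν (countablePartitionSet n x)).toReal = _
  rw [hκ _ _ (measurableSet_countablePartitionSet n x) hM]

end Density

section Main

variable {X : Type u} [TopologicalSpace X] [MeasurableSpace X]

/-- A measurable set with a `G_δ` representative is contained, up to a null set, in open sets which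
are only slightly larger. -/
lemma exists_open_approx [OpensMeasurableSpace X] (ν : Measure X) [IsFiniteMeasure ν] {P : Set X}
    (hP : ∃ G, IsGδ G ∧ G =ᵐ[ν] P) {ε : ℝ≥0∞} (hε : ε ≠ 0) :
    ∃ U, IsOpen U ∧ ν (P \ U) = 0 ∧ ν (U \ P) ≤ ε := by
  obtain ⟨G, hG, hGP⟩ := hP
  obtain ⟨O, hO, rfl⟩ := isGδ_iff_eq_iInter_nat.1 hG
  let V : ℕ → Set X := fun n => ⋂ i ∈ Finset.range (n + 1), O i
  have hVo : ∀ n, IsOpen (V n) := fun n => isOpen_biInter_finset fun i _ => hO i
  have hVanti : Antitone V := by
    intro a b hab x hx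
    simp only [V, mem_iInter, Finset.mem_range] at hx ⊢
    intro i hi
    exact hx i (by omega)
  have hVi : ⋂ n, V n = ⋂ n, O n := by
    apply Subset.antisymm
    · intro x hx
      simp only [V, mem_iInter, Finset.mem_range] at hx ⊢
      intro i
      exact hx i i (by omega)
    · intro x hx
      simp only [V, mem_iInter, Finset.mem_range] at hx ⊢
      intro n i _
      exact hx i
  have hlim : Tendsto (ν ∘ V) atTop (𝓝 (ν (⋂ n, V n))) :=
    tendsto_measure_iInter_atTop (fun n => (hVo n).measurableSet.nullMeasurableSet) hVanti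
      ⟨0, measure_ne_top _ _⟩
  rw [hVi] at hlim
  have hlt : ν (⋂ n, O n) < ν (⋂ n, O n) + ε :=
    ENNReal.lt_add_right (measure_ne_top _ _) hε
  obtain ⟨n, hn⟩ := ((tendsto_order.1 hlim).2 _ hlt).exists
  refine ⟨V n, hVo n, ?_, ?_⟩
  · have h1 : ν (P \ ⋂ n, O n) = 0 := by
      have := (ae_le_set.1 hGP.symm.le)
      exact this
    refine measure_mono_null ?_ h1
    rw [← hVi]
    exact sdiff_subset_sdiff_right (iInter_subset _ n)
  · have h2 : ν (V n \ ⋂ n, O n) ≤ ε := by
      rw [measure_sdiff (by rw [← hVi]; exact iInter_subset _ n) hG.measurableSet.nullMeasurableSet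
        (measure_ne_top _ _)]
      exact tsub_le_iff_left.2 hn.le
    have h3 : ν (V n \ P) = ν (V n \ ⋂ n, O n) :=
      measure_congr ((ae_eq_refl _).diff hGP.symm)
    rw [h3]
    exact h2

/-- The main construction, for a finite measure. -/
lemma main_finite [OpensMeasurableSpace X] [CountablyGenerated X] (ν : Measure X)
    [IsFiniteMeasure ν] (hν : ∀ M, MeasurableSet M → ∃ G, IsGδ G ∧ G =ᵐ[ν] M) :
    ∃ ψ : Set X → Set X, (∀ M, IsGδ (ψ M)) ∧ (∀ M M', M ≤ᵐ[ν] M' → ψ M ⊆ ψ M') ∧
      ∀ M, MeasurableSet M → ψ M =ᵐ[ν] M := by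
  classical
  let ι := Σ n : ℕ, ↥(countablePartition X n)
  have : ∀ n, Countable ↥(countablePartition X n) := fun n =>
    (finite_countablePartition X n).countable
  have : Countable ι := inferInstance
  obtain ⟨ε, hε0, hεs⟩ := ENNReal.exists_pos_sum_of_countable' (one_ne_zero) ι
  have hU : ∀ i : ι, ∃ U, IsOpen U ∧ ν (i.2.1 \ U) = 0 ∧ ν (U \ i.2.1) ≤ ε i := by
    intro i
    exact exists_open_approx ν (hν _ (measurableSet_countablePartition i.1 i.2.2)) (hε0 i).ne'
  choose U hUo hU1 hU2 using hU
  let ψ : Set X → Set X := fun M => ⋂ k : ℕ, ⋂ N : ℕ,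
    ⋃ i : {i : ι // N ≤ i.1 ∧
      ENNReal.ofReal (1 - 1 / (k + 2 : ℝ)) * ν i.2.1 < ν (i.2.1 ∩ M)}, U i.1
  refine ⟨ψ, ?_, ?_, ?_⟩
  · intro M
    refine IsGδ.iInter fun k => IsGδ.iInter fun N => IsOpen.isGδ ?_
    exact isOpen_iUnion fun i => hUo _
  · intro M M' h
    refine iInter_mono fun k => iInter_mono fun N => ?_
    rintro x hx
    obtain ⟨⟨i, hi1, hi2⟩, hx⟩ := mem_iUnion.1 hx
    refine mem_iUnion.2 ⟨⟨i, hi1, hi2.trans_le ?_⟩, hx⟩
    refine measure_mono_ae ?_
    exact (EventuallyLE.refl _ _).inter h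
  · intro M hM
    have hae1 : ∀ᵐ x ∂ν, {i : ι | x ∈ U i \ i.2.1}.Finite := by
      refine ae_finite_setOfPred_mem ?_
      refine ne_top_of_le_ne_top ENNReal.one_ne_top ?_
      refine le_trans (ENNReal.tsum_le_tsum fun i => hU2 i) ?_
      exact hεs.le
    have hae2 : ∀ᵐ x ∂ν, ∀ i : ι, x ∉ i.2.1 \ U i := by
      rw [ae_all_iff]
      intro i
      exact measure_eq_zero_iff_ae_notMem.1 (hU1 i)
    filter_upwards [hae1, hae2, dens_tendsto ν hM] with x hx1 hx2 hx3
    apply propext
    change x ∈ ψ M ↔ x ∈ M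
    constructor
    · intro hx
      by_contra hxM
      rw [indicator_of_notMem hxM] at hx3
      have h1 := (tendsto_order.1 hx3).2 (1/2) (by norm_num)
      obtain ⟨N1, hN1⟩ := eventually_atTop.1 h1
      obtain ⟨N2, hN2⟩ := (hx1.image (fun i : ι => i.1)).bddAbove
      have h2 := mem_iInter.1 (mem_iInter.1 hx 0) (max N1 (N2 + 1))
      obtain ⟨⟨i, hi1, hi2⟩, hxi⟩ := mem_iUnion.1 h2
      have hxP : x ∈ i.2.1 := by
        by_contra hcon
        have := hN2 (mem_image_of_mem (fun i : ι => i.1)
          (show i ∈ {i : ι | x ∈ U i \ i.2.1} from ⟨hxi, hcon⟩))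
        have h3 := (le_max_right N1 (N2 + 1)).trans hi1
        omega
      have hPx : countablePartitionSet i.1 x = i.2.1 := countablePartitionSet_of_mem i.2.2 hxP
      have h4 := hN1 i.1 ((le_max_left N1 (N2 + 1)).trans hi1)
      rw [hPx] at h4
      have h5 : ENNReal.ofReal (1 / 2) * ν i.2.1 < ν (i.2.1 ∩ M) := by
        refine lt_of_eq_of_lt ?_ hi2
        congr 2
        norm_num
      have h6 : ν i.2.1 ≠ 0 := by
        intro h0
        rw [h0, mul_zero] at h5
        have := h5.trans_le (measure_mono inter_subset_left)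
        rw [h0] at this
        exact lt_irrefl _ this
      have h7 : ENNReal.ofReal (1 / 2) < ν (i.2.1 ∩ M) / ν i.2.1 := by
        rw [ENNReal.lt_div_iff_mul_lt (Or.inl h6) (Or.inl (measure_ne_top _ _))]
        exact h5
      have h8 : ν (i.2.1 ∩ M) / ν i.2.1 ≠ ⊤ :=
        (ENNReal.div_lt_top (measure_ne_top _ _) h6).ne
      have h9 := (ENNReal.ofReal_lt_iff_lt_toReal (by norm_num) h8).1 h7
      linarith
    · intro hxM
      rw [indicator_of_mem hxM] at hx3
      refine mem_iInter.2 fun k => mem_iInter.2 fun N => ?_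
      have hk : (1 - 1 / (k + 2 : ℝ)) < 1 := by
        have : (0 : ℝ) < 1 / (k + 2 : ℝ) := by positivity
        linarith
      have hk0 : (0 : ℝ) ≤ (1 - 1 / (k + 2 : ℝ)) := by
        have : 1 / (k + 2 : ℝ) ≤ 1 := by
          rw [div_le_one (by positivity)]
          have : (0 : ℝ) ≤ k := Nat.cast_nonneg k
          linarith
        linarith
      obtain ⟨n, hn1, hn2⟩ := (((tendsto_order.1 hx3).1 _ hk).and (eventually_ge_atTop N)).exists
      have hP := countablePartitionSet_mem n x
      let i : ι := ⟨n, ⟨countablePartitionSet n x, hP⟩⟩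
      have hxi : x ∈ U i := by
        by_contra hcon
        exact hx2 i ⟨mem_countablePartitionSet n x, hcon⟩
      refine mem_iUnion.2 ⟨⟨i, hn2, ?_⟩, hxi⟩
      show ENNReal.ofReal (1 - 1 / (k + 2 : ℝ)) * ν (countablePartitionSet n x) <
        ν (countablePartitionSet n x ∩ M)
      have h6 : ν (countablePartitionSet n x) ≠ 0 := by
        intro h0
        have h00 : ν (countablePartitionSet n x ∩ M) = 0 := measure_mono_null inter_subset_left h0
        rw [h0, h00] at hn1
        simp only [ENNReal.zero_div, ENNReal.toReal_zero] at hn1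
        linarith
      have h8 : ν (countablePartitionSet n x ∩ M) / ν (countablePartitionSet n x) ≠ ⊤ :=
        (ENNReal.div_lt_top (measure_ne_top _ _) h6).ne
      have h9 := (ENNReal.ofReal_lt_iff_lt_toReal hk0 h8).2 hn1
      rwa [ENNReal.lt_div_iff_mul_lt (Or.inl h6) (Or.inl (measure_ne_top _ _))] at h9

/-- The characterisation for s-finite measures. -/
lemma hasMonotoneGdelta_iff [OpensMeasurableSpace X] [CountablyGenerated X] (μ : Measure X)
    [SFinite μ] :
    HasMonotoneGdelta μ ↔ ∀ M, MeasurableSet M → ∃ G, IsGδ G ∧ μ (symmDiff G M) = 0 := by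
  constructor
  · rintro ⟨ψ, h1, -, -, h3, -⟩ M hM
    exact ⟨ψ ⟨M, hM.nullMeasurableSet⟩, h1 _, by
      rw [symmDiff_comm]; exact h3 ⟨M, hM.nullMeasurableSet⟩⟩
  · intro h
    have hac1 : μ ≪ μ.toFinite := absolutelyContinuous_toFinite μ
    have hac2 : μ.toFinite ≪ μ := toFinite_absolutelyContinuous μ
    obtain ⟨ψ, hψ1, hψ2, hψ3⟩ := main_finite μ.toFinite (fun M hM => by
      obtain ⟨G, hG1, hG2⟩ := h M hM
      exact ⟨G, hG1, hac2.ae_eq (measure_symmDiff_eq_zero_iff.1 hG2)⟩)
    refine ⟨fun M => ψ M.1, fun M => hψ1 _, ?_, ?_, ?_, ?_⟩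
    · intro M M' hMM
      exact hψ2 _ _ (Eventually.of_forall fun x hx => hMM hx)
    · intro M M' hMM
      exact hψ2 _ _ (hac2.ae_le (ae_le_set.2 hMM))
    · intro M
      obtain ⟨M', -, hM', hMM⟩ := M.2.exists_measurable_superset_ae_eq
      have h1 : ψ M.1 = ψ M' :=
        Subset.antisymm (hψ2 _ _ (hac2.ae_eq hMM.symm).le) (hψ2 _ _ (hac2.ae_eq hMM).le)
      rw [measure_symmDiff_eq_zero_iff]
      show M.1 =ᵐ[μ] ψ M.1
      rw [h1]
      exact hMM.symm.trans (hac1.ae_eq (hψ3 M' hM')).symm
    · intro M M' hMM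
      rw [measure_symmDiff_eq_zero_iff] at hMM
      exact Subset.antisymm (hψ2 _ _ (hac2.ae_eq hMM).le) (hψ2 _ _ (hac2.ae_eq hMM).symm.le)

/-- On a pseudometrizable space every Borel set has a `G_δ` representative for every s-finite Borel
measure. -/
lemma exists_gdelta_rep [TopologicalSpace.PseudoMetrizableSpace X]
    [BorelSpace X] (μ : Measure X) [SFinite μ] (M : Set X) (hM : MeasurableSet M) :
    ∃ G, IsGδ G ∧ μ (symmDiff G M) = 0 := by
  have hac1 : μ ≪ μ.toFinite := absolutelyContinuous_toFinite μ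
  have hU : ∀ n : ℕ, ∃ U, M ⊆ U ∧ IsOpen U ∧
      μ.toFinite U < μ.toFinite M + (n + 1 : ℝ≥0∞)⁻¹ := by
    intro n
    have hlt : μ.toFinite M < μ.toFinite M + (n + 1 : ℝ≥0∞)⁻¹ := by
      refine ENNReal.lt_add_right (measure_ne_top _ _) ?_
      simp
    obtain ⟨U, h1, h2, h3⟩ := M.exists_isOpen_lt_of_lt (μ := μ.toFinite) _ hlt
    exact ⟨U, h1, h2, h3⟩
  choose U hU1 hU2 hU3 using hU
  have hG : IsGδ (⋂ n, U n) := IsGδ.iInter_of_isOpen hU2
  refine ⟨⋂ n, U n, hG, ?_⟩
  rw [measure_symmDiff_eq_zero_iff]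
  have hsub : M ⊆ ⋂ n, U n := subset_iInter hU1
  refine (hac1.ae_eq (ae_eq_of_subset_of_measure_ge hsub ?_ hM.nullMeasurableSet
    (measure_ne_top _ _))).symm
  have hlim : Tendsto (fun n : ℕ => μ.toFinite M + ((n : ℝ≥0∞) + 1)⁻¹) atTop
      (𝓝 (μ.toFinite M + 0)) := by
    refine tendsto_const_nhds.add ?_
    have := (tendsto_add_atTop_iff_nat 1).2 ENNReal.tendsto_inv_nat_nhds_zero
    simpa using this
  rw [add_zero] at hlim
  exact ge_of_tendsto' hlim fun n => (measure_mono (iInter_subset U n)).trans (hU3 n).le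

/-- If all singletons of `ℝ` have positive measure then `ℚ` has no `G_δ` representative. -/
lemma rat_no_rep (μ : Measure ℝ) (hμ : ∀ x : ℝ, μ {x} ≠ 0) : ¬ HasMonotoneGdelta μ := by
  rintro ⟨ψ, h1, -, -, h3, -⟩
  have hQ : MeasurableSet (range ((↑) : ℚ → ℝ)) := (countable_range _).measurableSet
  let M : {M : Set ℝ // NullMeasurableSet M μ} := ⟨_, hQ.nullMeasurableSet⟩
  have h4 : ψ M = range ((↑) : ℚ → ℝ) := by
    by_contra hne
    have h5 : (symmDiff M.1 (ψ M)).Nonempty := by
      rw [nonempty_iff_ne_empty]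
      intro h0
      exact hne (symmDiff_eq_bot.1 h0).symm
    obtain ⟨x, hx⟩ := h5
    exact hμ x (measure_mono_null (singleton_subset_iff.2 hx) (h3 M))
  have h5 : IsGδ (range ((↑) : ℚ → ℝ)) := h4 ▸ h1 M
  have h6 : Dense (range ((↑) : ℚ → ℝ)) := Rat.denseRange_cast
  have h7 := h6.inter_of_Gδ h5 IsGδ.setOfPred_irrational dense_irrational
  obtain ⟨x, hx1, hx2⟩ := h7.nonempty
  exact hx2 hx1

end Main

/-- **Main theorem.** (1) Let `μ` be an s-finite measure on a countably generated σ-algebra of a
topological space which contains the open sets. Then there is a monotone map from the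
`μ`-measurable sets to the `G_δ` sets which picks a representative of every class modulo null sets
(depending only on the class) if and only if every measurable set differs from some `G_δ` set
by a null set. (2) This is the case for every s-finite Borel measure on every second countable
pseudometrizable space, (3) in particular for Lebesgue measure on `ℝ`. (4) It is not the case for
a measure on `ℝ` for which no singleton is null, such as the counting measure. -/
theorem result :
    (∀ (X : Type u) [TopologicalSpace X] [MeasurableSpace X] [OpensMeasurableSpace X]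
        [CountablyGenerated X] (μ : Measure X) [SFinite μ],
      HasMonotoneGdelta μ ↔
        ∀ M, MeasurableSet M → ∃ G, IsGδ G ∧ μ (symmDiff G M) = 0) ∧
    (∀ (X : Type u) [TopologicalSpace X] [TopologicalSpace.PseudoMetrizableSpace X]
        [SecondCountableTopology X] [MeasurableSpace X] [BorelSpace X] (μ : Measure X) [SFinite μ],
      HasMonotoneGdelta μ) ∧
    HasMonotoneGdelta (volume : Measure ℝ) ∧
    ∀ μ : Measure ℝ, (∀ x, μ {x} ≠ 0) → ¬ HasMonotoneGdelta μ := by
  refine ⟨fun X _ _ _ _ μ _ => hasMonotoneGdelta_iff μ, fun X _ _ _ _ _ μ _ => ?_, ?_,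
    rat_no_rep⟩
  · exact (hasMonotoneGdelta_iff μ).2 (exists_gdelta_rep μ)
  · exact (hasMonotoneGdelta_iff _).2 (exists_gdelta_rep _)

end Pool.Agent.Results.MP_2abcfb_lc.AllMeasures
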